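import Pool.Agent.Helper53.FM.Defs
import Pool.Agent.Helper63.WR2.Inf
import Pool.Agent.Helper63.FB.Params

/-!
# Project FM, D2, part 1: the parameters of the infinite tower
-/

set_option autoImplicit false

namespace Pool.Agent.Helper63.FM

open Filter Finset
open Pool.Agent.Helper53.WR
open Pool.Agent.Helper53.FM
open Pool.Agent.Helper63.WR2
open Pool.Agent.Helper63.FB (w_pow_le_self)
open Pool.Agent.Helper48.FB (win crossF Cs WinLe Fs Dk LR zR dens)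

noncomputable section

/-- The conditions that have to hold for all large numbers `a`. -/
structure Cond3 (s0 : ℕ) (a : ℕ) : Prop where
  cond : Cond 1 0 s0 a
  w42 : 2 ^ 42 ≤ w a
  eu : 200 * (w a ^ 8 + 1) ≤ Psi a
  hlog : ((256 * (Nat.sqrt (Nat.log 2 a) + 1) ^ 4 + 10 * Nat.log 2 a + 200 : ℕ) : ℝ) ≤ w a ^ 8

lemma natlog_le {a : ℕ} (ha : 1 ≤ a) : (Nat.log 2 a : ℝ) ≤ 4 * w a := by
  have h1 := natlog_mul_log (a := a) (by omega)
  have h2 := log_le_two_w (x := (a : ℝ)) (by exact_mod_cast ha)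
  have h3 : (0.6931471803 : ℝ) < Real.log 2 := Real.log_two_gt_d9
  have h4 : (0 : ℝ) ≤ Nat.log 2 a := Nat.cast_nonneg _
  nlinarith

lemma eventually_cond3 (s0 : ℕ) : ∀ᶠ a : ℕ in atTop, Cond3 s0 a := by
  have hcast : Tendsto (fun a : ℕ => (a : ℝ)) atTop atTop := tendsto_natCast_atTop_atTop
  have h1 := eventually_cond (p := 1) one_pos 0 s0
  have h2 := hcast.eventually (tendsto_w.eventually_ge_atTop (2 ^ 42))
  have h3 := hcast.eventually (w_pow_le_self 10)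
  filter_upwards [h1, h2, h3, eventually_ge_atTop 2] with a h1 h2 h3 h4
  have hw : (0 : ℝ) < w a := w_pos _
  have hw1 := one_le_w (a : ℝ)
  refine ⟨h1, h2, ?_, ?_⟩
  · unfold Psi
    rw [le_div_iff₀ hw]
    refine le_trans ?_ h3
    have g1 : 1 ≤ w a ^ 8 := one_le_pow₀ hw1
    have g2 : 400 ≤ w a := le_trans (by norm_num) h2
    calc 200 * (w a ^ 8 + 1) * w a ≤ (400 * w a ^ 8) * w a := by
          apply mul_le_mul_of_nonneg_right _ hw.le
          linarith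
      _ ≤ (w a * w a ^ 8) * w a := by
          apply mul_le_mul_of_nonneg_right _ hw.le
          exact mul_le_mul_of_nonneg_right g2 (by positivity)
      _ = w a ^ 10 := by ring
  · set L := Nat.log 2 a with hL
    have hL1 : 1 ≤ L := Nat.log_pos (by norm_num) h4
    have hLw : (L : ℝ) ≤ 4 * w a := natlog_le (by omega)
    have g1 : Nat.sqrt L + 1 ≤ 2 * Nat.sqrt L := by
      have : 1 ≤ Nat.sqrt L := Nat.sqrt_pos.2 hL1
      omega
    have g2 : (Nat.sqrt L + 1) ^ 4 ≤ 16 * L ^ 2 := by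
      calc (Nat.sqrt L + 1) ^ 4 ≤ (2 * Nat.sqrt L) ^ 4 := Nat.pow_le_pow_left g1 4
        _ = 16 * (Nat.sqrt L ^ 2) ^ 2 := by ring
        _ ≤ 16 * L ^ 2 := Nat.mul_le_mul_left _ (Nat.pow_le_pow_left (Nat.sqrt_le' L) 2)
    have g3 : 256 * (Nat.sqrt L + 1) ^ 4 + 10 * L + 200 ≤ 4306 * L ^ 2 := by nlinarith
    calc ((256 * (Nat.sqrt L + 1) ^ 4 + 10 * L + 200 : ℕ) : ℝ) ≤ ((4306 * L ^ 2 : ℕ) : ℝ) := by
          exact_mod_cast g3
      _ = 4306 * (L : ℝ) ^ 2 := by push_cast; ring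
      _ ≤ 4306 * (4 * w a) ^ 2 := by
          apply mul_le_mul_of_nonneg_left _ (by norm_num)
          exact pow_le_pow_left₀ (Nat.cast_nonneg _) hLw 2
      _ = 68896 * w a ^ 2 := by ring
      _ ≤ w a * w a ^ 2 := by
          apply mul_le_mul_of_nonneg_right _ (by positivity)
          exact le_trans (by norm_num) h2
      _ = w a ^ 3 := by ring
      _ ≤ w a ^ 8 := pow_le_pow_right₀ hw1 (by norm_num)

/-- The gap parameter. -/
def eI (a0 k : ℕ) : ℕ := ⌈w (aS a0 k) ^ 8⌉₊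

/-- The window parameter. -/
def wI (a0 k : ℕ) : ℕ := (4 * sS a0 k) ^ 4

/-- The balance parameter. -/
def cI (a0 k : ℕ) : ℕ := 2 ^ (4 * sS a0 k)

variable {s0 a0 : ℕ}

lemma condAt (H : ∀ a, a0 ≤ a → Cond3 s0 a) (k : ℕ) : Cond3 s0 (aS a0 k) := H _ (a0_le a0 k)

lemma tw0 (H : ∀ a, a0 ≤ a → Cond3 s0 a) :
    Tow (aS a0) (uS a0) (eS 1 a0) (tS 1 a0) (kS a0) (fS 0 0 a0) :=
  tow (s0 := s0) (fun a h => (H a h).cond) one_pos le_rfl zero_le_one

lemma pos_aS (H : ∀ a, a0 ≤ a → Cond3 s0 a) (k : ℕ) : 1 ≤ aS a0 k := (condAt H k).cond.pos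

lemma index_le' (H : ∀ a, a0 ≤ a → Cond3 s0 a) (k : ℕ) :
    (k : ℝ) ≤ 10 * w (aS a0 k) ^ 2 := by
  have h1 := index_le (p := 1) (c := 0) (s0 := s0) (fun a h => (H a h).cond) (tw0 H) k
  have h2 := log_le_two_w (x := (aS a0 k : ℝ)) (by exact_mod_cast pos_aS H k)
  have h3 := w_pos (aS a0 k)
  nlinarith

lemma Dk_le (H : ∀ a, a0 ≤ a → Cond3 s0 a) (k : ℕ) :
    (Dk (kS a0) k : ℝ) ≤ 55 * 2 ^ 16 * w (aS a0 k) ^ 3 := by
  have h1 := index_le' H k
  have h2 := kS_le (a0 := a0) k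
  have hw1 := one_le_w (aS a0 k)
  unfold Dk
  push_cast
  set W : ℝ := w (aS a0 k) with hW
  have hW2 : 1 ≤ W ^ 2 := one_le_pow₀ hw1
  have h3 : (k : ℝ) + 1 ≤ 11 * W ^ 2 := by linarith
  calc ((k : ℝ) + 1) * (8192 * (8 * (kS a0 k : ℝ))) ≤ 11 * W ^ 2 * (8192 * (8 * (5 * W))) := by
        apply mul_le_mul h3 (by linarith) (by positivity) (by positivity)
    _ = 55 * 2 ^ 16 * W ^ 3 := by ring

lemma le_eI (a0 k : ℕ) : w (aS a0 k) ^ 8 ≤ (eI a0 k : ℝ) := Nat.le_ceil _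

lemma eI_le (a0 k : ℕ) : (eI a0 k : ℝ) ≤ w (aS a0 k) ^ 8 + 1 :=
  (Nat.ceil_lt_add_one (pow_nonneg (w_pos _).le _)).le

lemma mtow_inf (H : ∀ a, a0 ≤ a → Cond3 s0 a) :
    MTow (aS a0) (uS a0) (eI a0) (kS a0) (wI a0) (cI a0) := by
  have tw := tw0 H
  have hpos := pos_aS H
  have hposR : ∀ k, (0 : ℝ) < ((aS a0 k : ℕ) : ℝ) := fun k => by exact_mod_cast hpos k
  have hle : ∀ k, ((aS a0 k : ℕ) : ℝ) ≤ ((aS a0 (k + 1) : ℕ) : ℝ) := fun k => by
    exact_mod_cast aS_mono a0 (Nat.le_succ k)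
  have hlogN : ∀ k, 256 * sS a0 k ^ 4 + 10 * Nat.log 2 (aS a0 k) + 200 ≤ eI a0 k := fun k => by
    have h1 := (condAt H k).hlog
    have h2 := le_eI a0 k
    have h3 := h1.trans h2
    unfold sS
    exact_mod_cast h3
  have hu1 : ∀ k, (uS a0 k : ℝ) ≤ Psi (aS a0 k) := fun k => by
    apply Nat.floor_le
    have := (condAt H k).cond.hPsi
    linarith
  have hlogm : ∀ k, Nat.log 2 (aS a0 k) ≤ Nat.log 2 (aS a0 (k + 1)) := fun k =>
    Nat.log_mono_right (aS_mono a0 (Nat.le_succ k))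
  have hsm : ∀ k, sS a0 k ≤ sS a0 (k + 1) := fun k => by
    unfold sS
    exact Nat.add_le_add_right (Nat.sqrt_le_sqrt (hlogm k)) _
  have hlt2 : ∀ k, aS a0 k < 2 ^ (Nat.log 2 (aS a0 k) + 1) := fun k =>
    Nat.lt_pow_succ_log_self (by norm_num) _
  have hFs : ∀ k, Fs (uS a0) k ≤ 2 ^ (65 + Nat.log 2 (aS a0 k) + 1) := by
    intro k
    have h1 := hlt2 k
    have h5 : laT (uS a0) k + 1 ≤ 2 * aS a0 k := by
      have := hpos k
      have := laT_le (p := 1) (c := 0) (s0 := s0) (fun a h => (H a h).cond) le_rfl k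
      omega
    unfold Fs Cs
    calc 2 ^ 64 * (laT (uS a0) k + 1) ≤ 2 ^ 64 * (2 * aS a0 k) := Nat.mul_le_mul_left _ h5
      _ = 2 ^ 65 * aS a0 k := by ring
      _ ≤ 2 ^ 65 * 2 ^ (Nat.log 2 (aS a0 k) + 1) := Nat.mul_le_mul_left _ h1.le
      _ = _ := by rw [← pow_add, add_assoc]
  refine ⟨⟨tw.step, ?_, ?_, tw.ua, tw.uu, tw.uu', ?_, tw.kk', ?_, ?_, ?_, tw.hκ⟩,
    ?_, ?_, ?_, ?_, ?_, ?_, ?_⟩
  · intro k
    have h1 := hlogN k
    have h2 : 1 ≤ sS a0 k ^ 4 := Nat.one_le_pow _ _ (by unfold sS; omega)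
    omega
  · intro k
    have h1 := (condAt H k).eu
    have h2 := eI_le a0 k
    have h3 : Psi (aS a0 k) < (uS a0 k : ℝ) + 1 := Nat.lt_floor_add_one _
    have h4 : 1 ≤ w (aS a0 k) ^ 8 := one_le_pow₀ (one_le_w _)
    have h5 : ((100 * eI a0 k : ℕ) : ℝ) ≤ (uS a0 k : ℝ) := by
      push_cast
      linarith
    exact_mod_cast h5
  · intro k
    exact Nat.ceil_le_ceil (pow_le_pow_left₀ (w_pos _).le (w_mono (hposR k) (hle k)) 8)
  · intro k
    have h1 := hlt2 k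
    have h2 := hlogN k
    calc 20 * aS a0 k ≤ 2 ^ 5 * 2 ^ (Nat.log 2 (aS a0 k) + 1) := by omega
      _ = 2 ^ (5 + (Nat.log 2 (aS a0 k) + 1)) := by rw [← pow_add]
      _ ≤ _ := Nat.pow_le_pow_right (by norm_num) (by omega)
  · intro k
    have h2 := hlogN k
    exact (hFs k).trans (Nat.pow_le_pow_right (by norm_num) (by omega))
  · intro k
    have h2 := hlogN k
    have : 1 ≤ eI a0 k := by omega
    exact Nat.le_mul_of_pos_left _ this
  · intro k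
    have h1 := hu1 k
    have h2 := (condAt H k).w42
    have h3 : Psi (aS a0 k) * w (aS a0 k) = (aS a0 k : ℝ) := by
      unfold Psi
      exact div_mul_cancel₀ _ (w_pos _).ne'
    have h4 : (0 : ℝ) ≤ uS a0 k := Nat.cast_nonneg _
    have h5 : ((2 ^ 42 * uS a0 k : ℕ) : ℝ) ≤ ((aS a0 k : ℕ) : ℝ) := by
      rw [Nat.cast_mul, Nat.cast_pow, Nat.cast_ofNat]
      calc (2 : ℝ) ^ 42 * (uS a0 k : ℝ) ≤ w (aS a0 k) * Psi (aS a0 k) :=
            mul_le_mul h2 h1 h4 (w_pos _).le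
        _ = _ := by rw [mul_comm, h3]
    exact_mod_cast h5
  · intro k
    have h1 := Dk_le H k
    have h2 := le_eI a0 k
    have h3 := (condAt H k).w42
    have hw1 := one_le_w (aS a0 k)
    have h4 : ((2 ^ 20 * Dk (kS a0) k : ℕ) : ℝ) ≤ (eI a0 k : ℝ) := by
      rw [Nat.cast_mul, Nat.cast_pow, Nat.cast_ofNat]
      refine le_trans ?_ h2
      set W : ℝ := w (aS a0 k)
      calc (2 : ℝ) ^ 20 * (Dk (kS a0) k : ℝ) ≤ 2 ^ 20 * (55 * 2 ^ 16 * W ^ 3) :=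
            mul_le_mul_of_nonneg_left h1 (by norm_num)
        _ = (2 ^ 36 * 55) * W ^ 3 := by ring
        _ ≤ W * W ^ 3 := by
            apply mul_le_mul_of_nonneg_right _ (by positivity)
            exact le_trans (by norm_num) h3
        _ = W ^ 4 := by ring
        _ ≤ W ^ 8 := pow_le_pow_right₀ hw1 (by norm_num)
    exact_mod_cast h4
  · intro k
    have h2 := hlogN k
    have h3 : wI a0 k = 256 * sS a0 k ^ 4 := by unfold wI; ring
    omega
  · intro k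
    unfold wI
    exact Nat.pow_le_pow_left (Nat.mul_le_mul_left _ (hsm k)) 4
  · intro k
    refine (hFs k).trans (Nat.pow_le_pow_right (by norm_num) ?_)
    have h3 : wI a0 k = 256 * sS a0 k ^ 4 := by unfold wI; ring
    have h4 : Nat.log 2 (aS a0 k) < (Nat.sqrt (Nat.log 2 (aS a0 k)) + 1) ^ 2 :=
      Nat.lt_succ_sqrt' _
    have h5 : sS a0 k ^ 2 ≤ sS a0 k ^ 4 := Nat.pow_le_pow_right (by unfold sS; omega) (by norm_num)
    have h6 : Nat.log 2 (aS a0 k) < sS a0 k ^ 2 := h4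
    omega
  · intro k
    unfold cI
    exact Nat.pow_le_pow_right (by norm_num) (Nat.mul_le_mul_left _ (hsm k))
  · intro k
    unfold cI
    calc 2 = 2 ^ 1 := by norm_num
      _ ≤ _ := Nat.pow_le_pow_right (by norm_num) (by unfold sS; omega)

end

end Pool.Agent.Helper63.FM
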