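import Pool.Agent.Helper63.WR2.Fun

/-!
# Project FM, D2, part 2: inequalities for real functions
-/

set_option autoImplicit false

namespace Pool.Agent.Helper63.FM

open Filter
open Pool.Agent.Helper63.WR2

noncomputable section

lemma const_mul_w_le {C0 : ℝ} (hC0 : 1 ≤ C0) (m : ℕ) {x : ℝ} (hx : 2 ≤ x) :
    C0 * w x ^ m ≤ Real.exp ((m + 2 * Real.log C0) * √(Real.log x)) := by
  have h1 : 0 ≤ Real.log C0 := Real.log_nonneg hC0
  have h2 : (1 / 2 : ℝ) ≤ √(Real.log x) := by
    apply Real.le_sqrt_of_sq_le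
    have h3 : Real.log 2 ≤ Real.log x := Real.log_le_log (by norm_num) hx
    have h4 : (0.6931471803 : ℝ) < Real.log 2 := Real.log_two_gt_d9
    linarith
  have h3 : C0 = Real.exp (Real.log C0) := (Real.exp_log (by linarith)).symm
  have h4 : w x ^ m = Real.exp (m * √(Real.log x)) := by
    unfold w
    rw [← Real.exp_nat_mul]
  rw [h4]
  calc C0 * Real.exp (m * √(Real.log x))
      = Real.exp (Real.log C0) * Real.exp (m * √(Real.log x)) := by rw [← h3]
    _ = Real.exp (Real.log C0 + m * √(Real.log x)) := by rw [Real.exp_add]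
    _ ≤ Real.exp ((m + 2 * Real.log C0) * √(Real.log x)) := by
        apply Real.exp_le_exp.2
        nlinarith

lemma Phi_le_add {p : ℝ} (hp : 0 < p) : ∃ M : ℝ, 0 ≤ M ∧ ∀ x y : ℝ, 1 ≤ x → x ≤ y →
    Phi p x ≤ M + Phi p y := by
  refine ⟨(Real.exp ((4 / p) ^ 2)) ^ p, by positivity, ?_⟩
  intro x y hx hxy
  have hx0 : 0 < x := by linarith
  rcases le_or_gt (Real.exp ((4 / p) ^ 2)) x with h | h
  · have h1 : (4 / p) ^ 2 ≤ Real.log x := (Real.le_log_iff_exp_le hx0).2 h
    have h2 : 4 / p ≤ √(Real.log x) := Real.le_sqrt_of_sq_le h1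
    have h3 : 4 ≤ p * √(Real.log x) := by
      rw [div_le_iff₀ hp] at h2
      linarith
    have h4 := Phi_mono hp hx0 h3 hxy
    have h5 : (0 : ℝ) ≤ (Real.exp ((4 / p) ^ 2)) ^ p := by positivity
    linarith
  · have h1 : Phi p x ≤ x ^ p := by
      unfold Phi
      exact div_le_self (Real.rpow_nonneg hx0.le _) (one_le_pow₀ (one_le_w x))
    have h2 : x ^ p ≤ (Real.exp ((4 / p) ^ 2)) ^ p := Real.rpow_le_rpow hx0.le h.le hp.le
    have h3 : 0 ≤ Phi p y := Phi_nonneg (hx0.le.trans hxy)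
    linarith

lemma final_ineq3 {p : ℝ} (hp : 0 < p) (C0 C1 : ℝ) :
    ∀ᶠ x : ℝ in atTop, C0 * w x ^ 10 + C1 * (w x ^ 2 * Phi p x) ≤ x ^ p / w x := by
  filter_upwards [tendsto_w.eventually_ge_atTop (2 * C0), tendsto_w.eventually_ge_atTop (2 * C1),
    tendsto_sqrt_log.eventually_ge_atTop (12 / p), eventually_ge_atTop (1 : ℝ)] with x h0 h1 h2 hx
  have hx0 : 0 < x := by linarith
  have hw := w_pos x
  have hl : 0 ≤ Real.log x := Real.log_nonneg hx
  have hxp : 0 < x ^ p := Real.rpow_pos_of_pos hx0 _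
  have h3 : w x ^ 12 ≤ x ^ p := by
    have e1 : Real.log x = √(Real.log x) * √(Real.log x) := (Real.mul_self_sqrt hl).symm
    rw [div_le_iff₀ hp] at h2
    calc w x ^ 12 = Real.exp (12 * √(Real.log x)) := by
          unfold w
          rw [← Real.exp_nat_mul]
          norm_num
      _ ≤ Real.exp (Real.log x * p) := by
          apply Real.exp_le_exp.2
          calc 12 * √(Real.log x) ≤ (√(Real.log x) * p) * √(Real.log x) :=
                mul_le_mul_of_nonneg_right h2 (Real.sqrt_nonneg _)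
            _ = (√(Real.log x) * √(Real.log x)) * p := by ring
            _ = Real.log x * p := by rw [← e1]
      _ = x ^ p := by rw [Real.rpow_def_of_pos hx0]
  have h4 : C0 * w x ^ 10 ≤ x ^ p / w x / 2 := by
    rw [div_div, le_div_iff₀ (by positivity)]
    calc C0 * w x ^ 10 * (w x * 2) = (2 * C0) * w x ^ 11 := by ring
      _ ≤ w x * w x ^ 11 := mul_le_mul_of_nonneg_right h0 (by positivity)
      _ = w x ^ 12 := by ring
      _ ≤ x ^ p := h3
  have h5 : C1 * (w x ^ 2 * Phi p x) ≤ x ^ p / w x / 2 := by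
    have h6 : w x ^ 2 * Phi p x = x ^ p / w x ^ 2 := by
      unfold Phi
      field_simp
    rw [h6, ← mul_div_assoc, div_div, div_le_div_iff₀ (by positivity) (by positivity)]
    calc C1 * x ^ p * (w x * 2) = (2 * C1) * (x ^ p * w x) := by ring
      _ ≤ w x * (x ^ p * w x) := mul_le_mul_of_nonneg_right h1 (by positivity)
      _ = x ^ p * w x ^ 2 := by ring
  linarith

end

end Pool.Agent.Helper63.FM
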