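import Pool.Agent.Helper63.FM.Sum

/-!
# Project FM, D2, part 4: the thin parts
-/

set_option autoImplicit false

namespace Pool.Agent.Helper63.FM

open Filter Finset
open Pool.Agent.Helper53.WR
open Pool.Agent.Helper53.FM
open Pool.Agent.Helper63.WR2
open Pool.Agent.Helper48.FB (win crossF Cs WinLe Fs Dk LR zR dens)
open Pool.Agent.Helper48.FM (badM badM_card_le good_of_notMem sum_blockMax_le)

noncomputable section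

variable {s0 a0 : ℕ} {ρ : ℝ}

/-- The thin parts of the top sets. -/
def rI (ρ : ℝ) (c0 a0 k : ℕ) : ℕ :=
  ⌈((aS a0 k : ℕ) : ℝ) ^ ρ * (2 ^ (c0 * (4 * sS a0 k)) * w (aS a0 k) ^ 4)⌉₊

/-- The distance of the thin part from the start of the world. -/
def vI (ρ : ℝ) (a0 k : ℕ) : ℕ := ⌈Phi (1 - ρ) (aS a0 k)⌉₊

lemma one_le_rpow' (H : ∀ a, a0 ≤ a → Cond3 s0 a) (hρ0 : 0 ≤ ρ) (k : ℕ) :
    (1 : ℝ) ≤ ((aS a0 k : ℕ) : ℝ) ^ ρ :=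
  Real.one_le_rpow (by exact_mod_cast pos_aS H k) hρ0

lemma two_pow_le (H : ∀ a, a0 ≤ a → Cond3 s0 a) (c0 k : ℕ) :
    (2 : ℝ) ^ (c0 * (4 * sS a0 k)) ≤ 2 ^ (4 * c0) * w (aS a0 k) ^ (4 * c0) := by
  have h5 := two_pow_sS (p := 1) (c := 0) (s0 := s0) (fun a h => (H a h).cond) k
  calc (2 : ℝ) ^ (c0 * (4 * sS a0 k)) = ((2 : ℝ) ^ sS a0 k) ^ (4 * c0) := by
        rw [← pow_mul]
        congr 1
        ring
    _ ≤ (2 * w (aS a0 k)) ^ (4 * c0) := by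
        apply pow_le_pow_left₀ (by positivity)
        linarith
    _ = _ := by rw [mul_pow]

lemma rI_le (H : ∀ a, a0 ≤ a → Cond3 s0 a) (hρ0 : 0 ≤ ρ) (c0 k : ℕ) :
    (((rI ρ c0 a0 k + 1) * 2 ^ (c0 * (4 * sS a0 k)) : ℕ) : ℝ) ≤
      3 * 2 ^ (8 * c0) * (((aS a0 k : ℕ) : ℝ) ^ ρ * w (aS a0 k) ^ (8 * c0 + 4)) := by
  have h1 := one_le_rpow' H hρ0 k
  have h2 := two_pow_le H c0 k
  have hw1 := one_le_w (aS a0 k)
  set x : ℝ := ((aS a0 k : ℕ) : ℝ) with hx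
  set W : ℝ := w x with hW
  set P : ℝ := (2 : ℝ) ^ (c0 * (4 * sS a0 k)) with hP
  have hP1 : 1 ≤ P := one_le_pow₀ (by norm_num)
  have hW4 : 1 ≤ W ^ 4 := one_le_pow₀ hw1
  have hPW : 1 ≤ P * W ^ 4 := one_le_mul_of_one_le_of_one_le hP1 hW4
  have hy : 1 ≤ x ^ ρ * (P * W ^ 4) := one_le_mul_of_one_le_of_one_le h1 hPW
  have h3 : (rI ρ c0 a0 k : ℝ) ≤ x ^ ρ * (P * W ^ 4) + 1 :=
    (Nat.ceil_lt_add_one (by linarith)).le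
  have h4 : (rI ρ c0 a0 k : ℝ) + 1 ≤ 3 * (x ^ ρ * (P * W ^ 4)) := by linarith
  rw [Nat.cast_mul, Nat.cast_pow, Nat.cast_ofNat, ← hP]
  push_cast
  calc ((rI ρ c0 a0 k : ℝ) + 1) * P ≤ (3 * (x ^ ρ * (P * W ^ 4))) * P :=
        mul_le_mul_of_nonneg_right h4 (by linarith)
    _ = 3 * (x ^ ρ * W ^ 4) * P ^ 2 := by ring
    _ ≤ 3 * (x ^ ρ * W ^ 4) * (2 ^ (4 * c0) * W ^ (4 * c0)) ^ 2 := by
        apply mul_le_mul_of_nonneg_left _ (by positivity)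
        exact pow_le_pow_left₀ (by linarith) h2 2
    _ = _ := by ring

lemma tD_le' (H : ∀ a, a0 ≤ a → Cond3 s0 a) (hρ0 : 0 ≤ ρ) (k : ℕ) :
    (tD (aS a0 k) (eI a0 k) (vI ρ a0 k) : ℝ) ≤
      45 * (((aS a0 k : ℕ) : ℝ) ^ ρ * w (aS a0 k) ^ 4) := by
  have h1 := one_le_rpow' H hρ0 k
  have hx0 : (0 : ℝ) < ((aS a0 k : ℕ) : ℝ) := by exact_mod_cast pos_aS H k
  have hw1 := one_le_w (aS a0 k)
  have hw4 : 1 ≤ w (aS a0 k) ^ 4 := one_le_pow₀ hw1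
  have hPhi0 : 0 < Phi (1 - ρ) (aS a0 k) := by
    unfold Phi
    exact div_pos (Real.rpow_pos_of_pos hx0 _) (by positivity)
  have he : Phi (1 - ρ) (aS a0 k) ≤ ((eI a0 k + vI ρ a0 k : ℕ) : ℝ) := by
    have h2 : Phi (1 - ρ) (aS a0 k) ≤ (vI ρ a0 k : ℝ) := Nat.le_ceil _
    have h3 : (0 : ℝ) ≤ (eI a0 k : ℝ) := Nat.cast_nonneg _
    push_cast
    linarith
  have h2 : ((44 * aS a0 k / (eI a0 k + vI ρ a0 k) : ℕ) : ℝ) ≤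
      44 * (((aS a0 k : ℕ) : ℝ) ^ ρ * w (aS a0 k) ^ 4) := by
    refine (Nat.cast_div_le).trans ?_
    rw [Nat.cast_mul, Nat.cast_ofNat]
    calc (44 * ((aS a0 k : ℕ) : ℝ)) / ((eI a0 k + vI ρ a0 k : ℕ) : ℝ)
        ≤ (44 * ((aS a0 k : ℕ) : ℝ)) / Phi (1 - ρ) (aS a0 k) :=
          div_le_div_of_nonneg_left (by linarith) hPhi0 he
      _ = 44 * (((aS a0 k : ℕ) : ℝ) ^ ρ * w (aS a0 k) ^ 4) := by
          unfold Phi
          rw [div_div_eq_mul_div, div_eq_iff (Real.rpow_pos_of_pos hx0 _).ne']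
          have h3 : ((aS a0 k : ℕ) : ℝ) = ((aS a0 k : ℕ) : ℝ) ^ ρ * ((aS a0 k : ℕ) : ℝ) ^ (1 - ρ) := by
            rw [← Real.rpow_add hx0]
            norm_num
          calc 44 * ((aS a0 k : ℕ) : ℝ) * w (aS a0 k) ^ 4
              = 44 * (((aS a0 k : ℕ) : ℝ) ^ ρ * ((aS a0 k : ℕ) : ℝ) ^ (1 - ρ)) * w (aS a0 k) ^ 4 := by
                rw [← h3]
            _ = _ := by ring
  have h5 : 1 ≤ ((aS a0 k : ℕ) : ℝ) ^ ρ * w (aS a0 k) ^ 4 :=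
    one_le_mul_of_one_le_of_one_le h1 hw4
  unfold tD
  push_cast

  linarith

/-- The constant of the thin parts. -/
def CT (c0 : ℕ) : ℝ := 4096 ^ 2 * 2592 * (3 * 2 ^ (8 * c0)) + 8192 * (45 * (55 * 2 ^ 16))

lemma one_le_CT (c0 : ℕ) : 1 ≤ CT c0 := by
  unfold CT
  have : (0 : ℝ) ≤ 4096 ^ 2 * 2592 * (3 * 2 ^ (8 * c0)) := by positivity
  linarith

/-- The bound for the number of representations of the thin parts. -/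
lemma thin_rep (H : ∀ a, a0 ≤ a → Cond3 s0 a) (hρ0 : 0 ≤ ρ) (c0 k : ℕ) :
    ((4096 ^ 2 * 2592 * ((rI ρ c0 a0 k + 1) * 2 ^ (c0 * (4 * sS a0 k)))
      + 2 * (4096 * (tD (aS a0 k) (eI a0 k) (vI ρ a0 k) * Dk (kS a0) k)) : ℕ) : ℝ) ≤
      CT c0 * (((aS a0 k : ℕ) : ℝ) ^ ρ * w (aS a0 k) ^ (8 * c0 + 7)) := by
  have h1 := rI_le H hρ0 c0 k
  have h2 := tD_le' H hρ0 k
  have h3 := Dk_le H k
  have h4 := one_le_rpow' H hρ0 k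
  have hw1 := one_le_w (aS a0 k)
  rw [Nat.cast_add, Nat.cast_mul (4096 ^ 2 * 2592), Nat.cast_mul 2 (4096 * _), Nat.cast_mul 4096,
    Nat.cast_mul (tD _ _ _)]
  set x : ℝ := ((aS a0 k : ℕ) : ℝ) with hx
  set W : ℝ := w x with hW
  have hx0 : 0 ≤ x ^ ρ := by linarith
  have g1 : ((4096 ^ 2 * 2592 : ℕ) : ℝ) * (((rI ρ c0 a0 k + 1) * 2 ^ (c0 * (4 * sS a0 k)) : ℕ) : ℝ)
      ≤ 4096 ^ 2 * 2592 * (3 * 2 ^ (8 * c0)) * (x ^ ρ * W ^ (8 * c0 + 7)) := by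
    have g2 : W ^ (8 * c0 + 4) ≤ W ^ (8 * c0 + 7) := pow_le_pow_right₀ hw1 (by omega)
    calc _ ≤ ((4096 ^ 2 * 2592 : ℕ) : ℝ) * (3 * 2 ^ (8 * c0) * (x ^ ρ * W ^ (8 * c0 + 4))) :=
          mul_le_mul_of_nonneg_left h1 (Nat.cast_nonneg _)
      _ ≤ ((4096 ^ 2 * 2592 : ℕ) : ℝ) * (3 * 2 ^ (8 * c0) * (x ^ ρ * W ^ (8 * c0 + 7))) := by
          gcongr
      _ = _ := by push_cast; ring
  have g3 : ((2 : ℕ) : ℝ) * (((4096 : ℕ) : ℝ) * ((tD (aS a0 k) (eI a0 k) (vI ρ a0 k) : ℝ)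
      * (Dk (kS a0) k : ℝ))) ≤ 8192 * (45 * (55 * 2 ^ 16)) * (x ^ ρ * W ^ (8 * c0 + 7)) := by
    have g4 : W ^ 7 ≤ W ^ (8 * c0 + 7) := pow_le_pow_right₀ hw1 (by omega)
    calc _ ≤ ((2 : ℕ) : ℝ) * (((4096 : ℕ) : ℝ) * ((45 * (x ^ ρ * W ^ 4))
          * (55 * 2 ^ 16 * W ^ 3))) := by gcongr
      _ = 8192 * (45 * (55 * 2 ^ 16)) * (x ^ ρ * W ^ 7) := by push_cast; ring
      _ ≤ _ := by gcongr
  unfold CT
  linarith

lemma four_sS_le (H : ∀ a, a0 ≤ a → Cond3 s0 a) (k : ℕ) : 4 * sS a0 k ≤ eI a0 k := by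
  have h1 := (condAt H k).hlog
  have h2 := le_eI a0 k
  have h3 := h1.trans h2
  have h4 : 256 * sS a0 k ^ 4 + 10 * Nat.log 2 (aS a0 k) + 200 ≤ eI a0 k := by
    unfold sS
    exact_mod_cast h3
  have h5 : sS a0 k ≤ sS a0 k ^ 4 := Nat.le_self_pow (by norm_num) _
  omega

lemma thin_bad (H : ∀ a, a0 ≤ a → Cond3 s0 a) (hρ0 : 0 ≤ ρ) {c0 k : ℕ} {B : Finset ℕ}
    (hB : B.card * (rI ρ c0 a0 k + 1) ≤ 2 ^ (c0 * (4 * sS a0 k)) * laT (uS a0) k) :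
    (B.card : ℝ) ≤ Phi (1 - ρ) (aS a0 k) := by
  have h1 := one_le_rpow' H hρ0 k
  have hx0 : (0 : ℝ) < ((aS a0 k : ℕ) : ℝ) := by exact_mod_cast pos_aS H k
  have hw := w_pos (aS a0 k)
  have hla : ((laT (uS a0) k : ℕ) : ℝ) ≤ ((aS a0 k : ℕ) : ℝ) := by
    exact_mod_cast laT_le (p := 1) (c := 0) (s0 := s0) (fun a h => (H a h).cond) le_rfl k
  have h2 : ((B.card * (rI ρ c0 a0 k + 1) : ℕ) : ℝ) ≤
      ((2 ^ (c0 * (4 * sS a0 k)) * laT (uS a0) k : ℕ) : ℝ) := by exact_mod_cast hB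
  rw [Nat.cast_mul, Nat.cast_mul, Nat.cast_pow, Nat.cast_ofNat, Nat.cast_add, Nat.cast_one] at h2
  have h3 : ((aS a0 k : ℕ) : ℝ) ^ ρ * (2 ^ (c0 * (4 * sS a0 k)) * w (aS a0 k) ^ 4)
      ≤ (rI ρ c0 a0 k : ℝ) := Nat.le_ceil _
  have h5 : ((aS a0 k : ℕ) : ℝ) = ((aS a0 k : ℕ) : ℝ) ^ ρ * ((aS a0 k : ℕ) : ℝ) ^ (1 - ρ) := by
    rw [← Real.rpow_add hx0]
    norm_num
  set x : ℝ := ((aS a0 k : ℕ) : ℝ) with hx
  set P : ℝ := (2 : ℝ) ^ (c0 * (4 * sS a0 k)) with hP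
  have hP0 : 0 < P := by positivity
  have h4 : (B.card : ℝ) * (x ^ ρ * (P * w x ^ 4)) ≤ P * x := by
    calc (B.card : ℝ) * (x ^ ρ * (P * w x ^ 4)) ≤ (B.card : ℝ) * ((rI ρ c0 a0 k : ℝ) + 1) :=
          mul_le_mul_of_nonneg_left (by linarith) (Nat.cast_nonneg _)
      _ ≤ P * ((laT (uS a0) k : ℕ) : ℝ) := h2
      _ ≤ P * x := mul_le_mul_of_nonneg_left hla hP0.le
  have h6 : ((B.card : ℝ) * w x ^ 4) * (P * x ^ ρ) ≤ x ^ (1 - ρ) * (P * x ^ ρ) := by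
    calc ((B.card : ℝ) * w x ^ 4) * (P * x ^ ρ) = (B.card : ℝ) * (x ^ ρ * (P * w x ^ 4)) := by ring
      _ ≤ P * x := h4
      _ = P * (x ^ ρ * x ^ (1 - ρ)) := by rw [← h5]
      _ = _ := by ring
  have h7 := le_of_mul_le_mul_right h6 (by positivity)
  unfold Phi
  rw [le_div_iff₀ (by positivity)]
  exact h7

/-- The number of the exceptional blocks of a thin part. -/
lemma thin_count (H : ∀ a, a0 ≤ a → Cond3 s0 a) (hρ0 : 0 ≤ ρ) (hρ1 : ρ < 1) {c0 : ℕ}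
    {B : ℕ → Finset ℕ}
    (hB : ∀ k, (B k).card * (rI ρ c0 a0 k + 1) ≤ 2 ^ (c0 * (4 * sS a0 k)) * laT (uS a0) k) :
    ∀ᶠ J : ℕ in atTop, ((badM (aS a0) (uS a0) (eI a0) 0 (fun k => vI ρ a0 k + 4 * sS a0 k) B J
      (KsI a0 J)).card : ℝ) ≤ (J : ℝ) ^ (1 - ρ) / w J := by
  have hp : 0 < 1 - ρ := by linarith
  obtain ⟨M, hM0, hM⟩ := Phi_le_add hp
  set E0 : ℝ := ((4 * aS a0 0 + thT (uS a0) (eI a0) 0 + 9 + (vI ρ a0 0 + 4 * sS a0 0) + 0 : ℕ) : ℝ)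
    with hE0
  have hE00 : 0 ≤ E0 := Nat.cast_nonneg _
  have hcast : Tendsto (fun a : ℕ => (a : ℝ)) atTop atTop := tendsto_natCast_atTop_atTop
  filter_upwards [hcast.eventually (final_ineq3 hp (E0 + 11 * (7 * M + 164)) 77),
    eventually_ge_atTop 1] with J hJ hJ1
  refine le_trans ?_ hJ
  have h1 := badM_card_le (aS a0) (uS a0) (eI a0) 0 (fun k => vI ρ a0 k + 4 * sS a0 k) B J
    (KsI a0 J)
  have hX1 := one_le_w (J : ℝ)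
  have hPJ : 0 ≤ Phi (1 - ρ) J := Phi_nonneg (Nat.cast_nonneg _)
  have h2 : ((badM (aS a0) (uS a0) (eI a0) 0 (fun k => vI ρ a0 k + 4 * sS a0 k) B J
      (KsI a0 J)).card : ℝ) ≤ E0 + ((∑ k ∈ KsI a0 J, (6 * (B k).card + (64 * eI a0 (k + 1) + 33 +
        (vI ρ a0 (k + 1) + 4 * sS a0 (k + 1)) + 0)) : ℕ) : ℝ) := by
    rw [hE0, ← Nat.cast_add]
    exact_mod_cast h1
  refine h2.trans ?_
  rw [Nat.cast_sum]
  set X : ℝ := w J with hX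
  have hX8 : 1 ≤ X ^ 8 := one_le_pow₀ hX1
  have hX10 : 1 ≤ X ^ 10 := one_le_pow₀ hX1
  have hterm : ∀ k ∈ KsI a0 J, ((6 * (B k).card + (64 * eI a0 (k + 1) + 33 +
        (vI ρ a0 (k + 1) + 4 * sS a0 (k + 1)) + 0) : ℕ) : ℝ)
        ≤ 7 * Phi (1 - ρ) J + (7 * M + 164) * X ^ 8 := by
    intro k hk
    have hk4 := le_of_mem_KsI hk
    have g1 := thin_bad H hρ0 (hB k)
    have g2 := eI_succ_le H hk4
    have g3 : ((4 * sS a0 (k + 1) : ℕ) : ℝ) ≤ (eI a0 (k + 1) : ℝ) := by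
      exact_mod_cast four_sS_le H (k + 1)
    have g4 : (vI ρ a0 (k + 1) : ℝ) ≤ Phi (1 - ρ) (aS a0 (k + 1)) + 1 :=
      (Nat.ceil_lt_add_one (Phi_nonneg (Nat.cast_nonneg _))).le
    have g5 : Phi (1 - ρ) (aS a0 k) ≤ M + Phi (1 - ρ) J := by
      apply hM
      · exact_mod_cast pos_aS H k
      · exact_mod_cast (show aS a0 k ≤ J by omega)
    have g6 : Phi (1 - ρ) (aS a0 (k + 1)) ≤ M + Phi (1 - ρ) J := by
      apply hM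
      · exact_mod_cast pos_aS H (k + 1)
      · exact_mod_cast aS_succ_le H hk4
    push_cast at g3 ⊢
    have g7 : M * 1 ≤ M * X ^ 8 := mul_le_mul_of_nonneg_left hX8 hM0
    linarith
  have hsum : (∑ k ∈ KsI a0 J, ((6 * (B k).card + (64 * eI a0 (k + 1) + 33 +
        (vI ρ a0 (k + 1) + 4 * sS a0 (k + 1)) + 0) : ℕ) : ℝ))
        ≤ 77 * (X ^ 2 * Phi (1 - ρ) J) + 11 * (7 * M + 164) * X ^ 10 := by
    calc _ ≤ ∑ k ∈ KsI a0 J, (7 * Phi (1 - ρ) J + (7 * M + 164) * X ^ 8) := sum_le_sum hterm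
      _ = (KsI a0 J).card * (7 * Phi (1 - ρ) J + (7 * M + 164) * X ^ 8) := by
          rw [sum_const, nsmul_eq_mul]
      _ ≤ (11 * X ^ 2) * (7 * Phi (1 - ρ) J + (7 * M + 164) * X ^ 8) :=
          mul_le_mul_of_nonneg_right (card_KsI_le J) (by positivity)
      _ = _ := by ring
  have hfin : E0 * 1 ≤ E0 * X ^ 10 := mul_le_mul_of_nonneg_left hX10 hE00
  linarith

end

end Pool.Agent.Helper63.FM
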