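import Pool.Agent.Helper48.FM.FiniteThm
import Pool.Agent.Helper63.FM.Thin

/-!
# Project FM, D2: the infinite theorem
-/

set_option autoImplicit false

namespace Pool.Agent.Helper63.FM

open Filter Finset
open Pool.Agent.Helper53.WR
open Pool.Agent.Helper53.FM
open Pool.Agent.Helper63.WR2
open Pool.Agent.Helper48.FB (win crossF Cs WinLe Fs Dk LR zR dens)
open Pool.Agent.Helper48.FM (badM badM_card_le good_of_notMem sum_blockMax_le rep_le_of_tower zR_le)
open Pool.Agent.Helper48.WR (exists_range)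

noncomputable section

variable {s0 a0 : ℕ}

lemma exists_tops (H : ∀ a, a0 ≤ a → Cond3 s0 a) {c0 : ℕ}
    (hfin : ∀ s, s0 ≤ s → ∀ J : ℕ, 100 ≤ J → 14 * Nat.log 2 J ≤ s ^ 2 →
      ∃ (T : Finset ℕ) (T' B : ℕ → Finset ℕ) (g : ℕ → ℕ),
        MTop J (Cs * (J + 1)) (s ^ 4) (2 ^ s) (fun R => (R + 1) * 2 ^ (c0 * s)) g T T' B ∧
        ∑ j ∈ range J, g j ≤ 2 ^ (c0 * s) * J ∧
        ∀ R, (B R).card * (R + 1) ≤ 2 ^ (c0 * s) * J ∧ ∀ j ∈ B R, j < J) (k : ℕ) :
    ∃ (T : Finset ℕ) (T' B : ℕ → Finset ℕ) (g : ℕ → ℕ),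
      MTop (laT (uS a0) k) (Fs (uS a0) k) (wI a0 k) (cI a0 k)
        (fun R => (R + 1) * 2 ^ (c0 * (4 * sS a0 k))) g T T' B ∧
      ∑ j ∈ range (laT (uS a0) k), g j ≤ 2 ^ (c0 * (4 * sS a0 k)) * laT (uS a0) k ∧
      ∀ R, (B R).card * (R + 1) ≤ 2 ^ (c0 * (4 * sS a0 k)) * laT (uS a0) k := by
  have hT := mtow_inf H
  have hla := laT_le (p := 1) (c := 0) (s0 := s0) (fun a h => (H a h).cond) le_rfl k
  have g1 : s0 ≤ 4 * sS a0 k := by
    have h3 := (condAt H k).cond.hs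
    have h4 : sS a0 k = Nat.sqrt (Nat.log 2 (aS a0 k)) + 1 := rfl
    omega
  have g2 : 100 ≤ laT (uS a0) k := by
    have h3 := hT.tow.eu k
    have h4 := hT.tow.e300 k
    have h5 := hT.tow.uu' k
    unfold laT
    omega
  have g3 : 14 * Nat.log 2 (laT (uS a0) k) ≤ (4 * sS a0 k) ^ 2 := by
    have h3 : Nat.log 2 (laT (uS a0) k) ≤ Nat.log 2 (aS a0 k) := Nat.log_mono_right hla
    have h4 : Nat.log 2 (aS a0 k) < (Nat.sqrt (Nat.log 2 (aS a0 k)) + 1) ^ 2 :=
      Nat.lt_succ_sqrt' _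
    have h5 : (4 * sS a0 k) ^ 2 = 16 * (Nat.sqrt (Nat.log 2 (aS a0 k)) + 1) ^ 2 := by
      unfold sS
      ring
    omega
  obtain ⟨T, T', B, g, h1, h2, h3⟩ := hfin (4 * sS a0 k) g1 (laT (uS a0) k) g2 g3
  exact ⟨T, T', B, g, h1, h2, fun R => (h3 R).1⟩

lemma bcov_covBlock {A : Set ℕ} {c j : ℕ} (h : BCov A c j) : CovBlock A j := by
  intro n h1 h2
  obtain ⟨x, hx, y, hy, h3, -⟩ := h n h1 h2
  exact ⟨x, hx, y, hy, h3⟩

/-- FM-D2 (infinite theorem). -/
theorem infinite_thm3 : ∃ (A : Set ℕ) (C : ℝ), (∀ n, ∃ x ∈ A, ∃ y ∈ A, x + y = n) ∧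
    (∀ j : ℕ, (blockMax A j : ℝ) ≤ C * (j + 1)) ∧
    (∀ J : ℕ, 2 ≤ J → ∑ j ∈ range J, (blockMax A j : ℝ) ≤ J * Real.exp (C * √(Real.log J))) ∧
    ∀ ρ : ℝ, 0 ≤ ρ → ρ < 1 → ∃ A' : Set ℕ, A' ⊆ A ∧
      (∀ l n : ℕ, 2 ≤ l → n < 2 ^ l →
        (rep A' n : ℝ) ≤ (l : ℝ) ^ ρ * Real.exp (C * √(Real.log l))) ∧
      ∀ᶠ J : ℕ in atTop,
        (badCount A' J : ℝ) ≤ (J : ℝ) ^ (1 - ρ) * Real.exp (-√(Real.log J)) := by
  classical
  obtain ⟨c0, s0, hfin⟩ := Pool.Agent.Helper48.FM.finite_thm3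
  obtain ⟨a0, H⟩ := eventually_atTop.1 (eventually_cond3 s0)
  have hT := mtow_inf H
  choose T T' B g hT1 hg hB using exists_tops H hfin
  obtain ⟨A, h01, hcov, hrep, hprof, -, hthin⟩ := St.mtower hT
    (fun k R => (R + 1) * 2 ^ (c0 * (4 * sS a0 k))) g T T' B hT1
  have hsum := fun (J : ℕ) (hJ : zR (aS a0) (uS a0) 0 < J) => sum_bound H hrep hprof hg hJ
  set E1 : ℝ := (((4 * aS a0 0 + thT (uS a0) (eI a0) 0 + 9 + 128 * eI a0 0 : ℕ) : ℝ) + 4587) *
    2 ^ 65 + 11 * (4096 ^ 2 * 2592 * 6 * 2 ^ (4 * c0) + (8192 * 55 * 2 ^ 16 + 2) * 56) with hE1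
  set z0 := zR (aS a0) (uS a0) 0 with hz0
  set Cb : ℝ := 4 * Cs * aS a0 0 + Cs with hCb
  have hCs0 : (0 : ℝ) ≤ 4 * Cs * aS a0 0 := by positivity
  have hCs1 : (0 : ℝ) ≤ Cs := Nat.cast_nonneg _
  have hCb0 : 0 ≤ Cb := by linarith
  have hE11 : 1 ≤ E1 := by
    have g1 : (0 : ℝ) ≤ ((4 * aS a0 0 + thT (uS a0) (eI a0) 0 + 9 + 128 * eI a0 0 : ℕ) : ℝ) :=
      Nat.cast_nonneg _
    have g2 : (0 : ℝ) ≤ 4096 ^ 2 * 2592 * 6 * 2 ^ (4 * c0) := by positivity
    rw [hE1]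
    linarith
  set E2 : ℝ := E1 + Cb * z0 with hE2
  have hCz : 0 ≤ Cb * (z0 : ℝ) := mul_nonneg hCb0 (Nat.cast_nonneg _)
  have hE21 : 1 ≤ E2 := by linarith
  have hCT := one_le_CT c0
  set C2 : ℝ := ((4 * c0 + 10 : ℕ) : ℝ) + 2 * Real.log E2 with hC2
  set C3 : ℝ := ((8 * c0 + 7 : ℕ) : ℝ) + 2 * Real.log (CT c0) with hC3
  have hC20 : 0 ≤ C2 := by
    have := Real.log_nonneg hE21
    positivity
  have hC30 : 0 ≤ C3 := by
    have := Real.log_nonneg hCT
    positivity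
  have hblock : ∀ j : ℕ, (blockMax A j : ℝ) ≤ Cb * (j + 1) := by
    intro j
    have hj0 : (0 : ℝ) ≤ j := Nat.cast_nonneg _
    rcases lt_or_ge z0 (j + 1) with hz | hz
    · have h1 : blockMax A j ≤ Cs * (j + 1) := by
        unfold blockMax
        refine Finset.sup_le fun n hn => ?_
        exact rep_le_of_tower hT hrep hz (mem_Ico.1 hn).2
      have h2 : (blockMax A j : ℝ) ≤ Cs * (j + 1) := by exact_mod_cast h1
      have h3 : 0 ≤ 4 * (Cs : ℝ) * aS a0 0 * (j + 1) := by positivity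
      rw [hCb, add_mul]
      linarith
    · have h1 : blockMax A j ≤ 4 * Cs * aS a0 0 := by
        unfold blockMax
        refine Finset.sup_le fun n hn => hrep 0 n ?_
        exact lt_of_lt_of_le (mem_Ico.1 hn).2 (Nat.pow_le_pow_right (by norm_num) hz)
      have h2 : (blockMax A j : ℝ) ≤ 4 * Cs * aS a0 0 := by exact_mod_cast h1
      have h3 : 4 * (Cs : ℝ) * aS a0 0 * 1 ≤ 4 * (Cs : ℝ) * aS a0 0 * (j + 1) :=
        mul_le_mul_of_nonneg_left (by linarith) hCs0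
      have h4 : 0 ≤ (Cs : ℝ) * (j + 1) := by positivity
      rw [hCb, add_mul]
      linarith
  refine ⟨A, Cb + C2 + C3, ?_, ?_, ?_, ?_⟩
  · intro n
    rcases Nat.lt_or_ge n 2 with hn | hn
    · interval_cases n
      · exact ⟨0, h01.1, 0, h01.1, rfl⟩
      · exact ⟨0, h01.1, 1, h01.2, rfl⟩
    · have h1 : n < 2 ^ zR (aS a0) (uS a0) n := by
        have h2 := zR_le hT n
        have h3 := hT.tow.le_a n
        calc n < 2 ^ n := Nat.lt_two_pow_self
          _ ≤ _ := Nat.pow_le_pow_right (by norm_num) (by omega)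
      obtain ⟨x, hx, y, hy, hxy, -⟩ := hcov n n hn h1
      exact ⟨x, hx, y, hy, hxy⟩
  · intro j
    refine (hblock j).trans ?_
    apply mul_le_mul_of_nonneg_right _ (by positivity)
    linarith
  · intro J hJ
    have hJ2 : (2 : ℝ) ≤ J := by exact_mod_cast hJ
    have hJ0 : (0 : ℝ) ≤ J := by linarith
    have hw1 : 1 ≤ w J ^ (4 * c0 + 10) := one_le_pow₀ (one_le_w _)
    have h1 : ∑ j ∈ range J, (blockMax A j : ℝ) ≤ J * (E2 * w J ^ (4 * c0 + 10)) := by
      rcases lt_or_ge z0 J with hz | hz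
      · have h2 := hsum J hz
        rw [Nat.cast_sum] at h2
        refine h2.trans ?_
        calc E1 * w J ^ (4 * c0 + 10) * J = J * (E1 * w J ^ (4 * c0 + 10)) := by ring
          _ ≤ J * (E2 * w J ^ (4 * c0 + 10)) := by
              apply mul_le_mul_of_nonneg_left _ hJ0
              exact mul_le_mul_of_nonneg_right (by linarith) (by linarith)
      · calc ∑ j ∈ range J, (blockMax A j : ℝ) ≤ ∑ j ∈ range J, Cb * z0 := by
              refine sum_le_sum fun j hj => (hblock j).trans ?_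
              apply mul_le_mul_of_nonneg_left _ hCb0
              have := mem_range.1 hj
              exact_mod_cast (show j + 1 ≤ z0 by omega)
          _ = J * (Cb * z0) := by rw [sum_const, card_range, nsmul_eq_mul]
          _ ≤ J * (E2 * w J ^ (4 * c0 + 10)) := by
              apply mul_le_mul_of_nonneg_left _ hJ0
              nlinarith
    refine h1.trans ?_
    apply mul_le_mul_of_nonneg_left _ hJ0
    refine (const_mul_w_le hE21 (4 * c0 + 10) hJ2).trans ?_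
    apply Real.exp_le_exp.2
    apply mul_le_mul_of_nonneg_right _ (Real.sqrt_nonneg _)
    linarith
  · intro ρ hρ0 hρ1
    obtain ⟨A', hsub, hzero, hrep', hgood⟩ := hthin (fun k => rI ρ c0 a0 k) (fun k => vI ρ a0 k)
    refine ⟨A', hsub, ?_, ?_⟩
    · intro l n hl hn
      have hl2 : (2 : ℝ) ≤ l := by exact_mod_cast hl
      rcases lt_or_ge n (2 ^ (4 * aS a0 0 + thT (uS a0) (eI a0) 0)) with h0 | h0
      · rw [hzero n h0, Nat.cast_zero]
        positivity
      · have hu1 : ∀ k, 1 ≤ uS a0 k := by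
          intro k
          have h1 := hT.tow.eu k
          have h2 := hT.tow.e300 k
          omega
        obtain ⟨k, hk1, hk2⟩ := exists_range (e := eI a0) hT.tow.step hu1 h0
        have h3 := hrep' k n hk1 hk2
        have h4 : 4 * aS a0 k + thT (uS a0) (eI a0) k < l := by
          have h5 : 2 ^ (4 * aS a0 k + thT (uS a0) (eI a0) k) < 2 ^ l := hk1.trans_lt hn
          exact (Nat.pow_lt_pow_iff_right (by norm_num)).1 h5
        have h6 : ((aS a0 k : ℕ) : ℝ) ≤ l := by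
          have : aS a0 k ≤ l := by omega
          exact_mod_cast this
        have hx1 : (1 : ℝ) ≤ ((aS a0 k : ℕ) : ℝ) := by exact_mod_cast pos_aS H k
        have h7 : (rep A' n : ℝ) ≤ CT c0 *
            (((aS a0 k : ℕ) : ℝ) ^ ρ * w (aS a0 k) ^ (8 * c0 + 7)) := by
          refine le_trans ?_ (thin_rep H hρ0 c0 k)
          exact_mod_cast h3
        have h8 : ((aS a0 k : ℕ) : ℝ) ^ ρ ≤ (l : ℝ) ^ ρ :=
          Real.rpow_le_rpow (by linarith) h6 hρ0
        have h9 : w (aS a0 k) ^ (8 * c0 + 7) ≤ w l ^ (8 * c0 + 7) :=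
          pow_le_pow_left₀ (w_pos _).le (w_mono (by linarith) h6) _
        have hlr : 0 ≤ (l : ℝ) ^ ρ := by positivity
        calc (rep A' n : ℝ) ≤ CT c0 * (((aS a0 k : ℕ) : ℝ) ^ ρ * w (aS a0 k) ^ (8 * c0 + 7)) := h7
          _ ≤ CT c0 * ((l : ℝ) ^ ρ * w l ^ (8 * c0 + 7)) := by
              apply mul_le_mul_of_nonneg_left _ (by linarith)
              exact mul_le_mul h8 h9 (pow_nonneg (w_pos _).le _) hlr
          _ = (l : ℝ) ^ ρ * (CT c0 * w l ^ (8 * c0 + 7)) := by ring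
          _ ≤ (l : ℝ) ^ ρ * Real.exp (C3 * √(Real.log l)) :=
              mul_le_mul_of_nonneg_left (const_mul_w_le hCT (8 * c0 + 7) hl2) hlr
          _ ≤ (l : ℝ) ^ ρ * Real.exp ((Cb + C2 + C3) * √(Real.log l)) := by
              apply mul_le_mul_of_nonneg_left _ hlr
              apply Real.exp_le_exp.2
              exact mul_le_mul_of_nonneg_right (by linarith) (Real.sqrt_nonneg _)
    · have hcnt := thin_count H hρ0 hρ1 (B := fun k => B k (rI ρ c0 a0 k))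
        (fun k => hB k (rI ρ c0 a0 k))
      filter_upwards [hcnt] with J hJ
      have h1 : badCount A' J ≤ (badM (aS a0) (uS a0) (eI a0) 0
          (fun k => vI ρ a0 k + 4 * sS a0 k) (fun k => B k (rI ρ c0 a0 k)) J (KsI a0 J)).card := by
        unfold badCount
        apply card_le_card
        intro j hj
        rw [mem_filter, mem_range] at hj
        by_contra hcon
        obtain ⟨k, -, g1, g2, g3⟩ := good_of_notMem hT (fun k hk => mem_KsI H hk) hj.1 hcon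
        apply hj.2
        refine bcov_covBlock (c := 2 * cI a0 k) (hgood k j ?_ g2 g3)
        have h2 : Nat.log 2 (cI a0 k) = 4 * sS a0 k := Nat.log_pow (by norm_num) _
        omega
      have h2 : (J : ℝ) ^ (1 - ρ) / w J = (J : ℝ) ^ (1 - ρ) * Real.exp (-√(Real.log J)) := by
        unfold w
        rw [Real.exp_neg, div_eq_mul_inv]
      rw [← h2]
      refine le_trans ?_ hJ
      exact_mod_cast h1

end

end Pool.Agent.Helper63.FM
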