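import Pool.Agent.Helper48.FM.LevStep
import Pool.Agent.Helper63.FM.Params
import Pool.Agent.Helper63.FM.Real

/-!
# Project FM, D2, part 3: the sum of the block maxima
-/

set_option autoImplicit false

namespace Pool.Agent.Helper63.FM

open Filter Finset
open Pool.Agent.Helper53.WR
open Pool.Agent.Helper53.FM
open Pool.Agent.Helper63.WR2
open Pool.Agent.Helper48.FB (win crossF Cs WinLe Fs Dk LR zR dens)
open Pool.Agent.Helper48.FM (badM badM_card_le good_of_notMem sum_blockMax_le)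

noncomputable section

/-- The worlds that start below `J`. -/
def KsI (a0 J : ℕ) : Finset ℕ :=
  (range (⌊10 * w J ^ 2⌋₊ + 1)).filter (fun k => 4 * aS a0 k ≤ J)

variable {s0 a0 : ℕ}

lemma w_aS_le (H : ∀ a, a0 ≤ a → Cond3 s0 a) {J k : ℕ} (h : 4 * aS a0 k ≤ J) :
    w (aS a0 k) ≤ w J := by
  have h1 : (1 : ℝ) ≤ ((aS a0 k : ℕ) : ℝ) := by exact_mod_cast pos_aS H k
  have h2 : ((aS a0 k : ℕ) : ℝ) ≤ (J : ℝ) := by exact_mod_cast (show aS a0 k ≤ J by omega)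
  exact w_mono (by linarith) h2

lemma aS_succ_le (H : ∀ a, a0 ≤ a → Cond3 s0 a) {J k : ℕ} (h : 4 * aS a0 k ≤ J) :
    aS a0 (k + 1) ≤ J := by
  have h1 := (tw0 H).step k
  have h2 := (tw0 H).ua k
  omega

lemma w_aS_succ_le (H : ∀ a, a0 ≤ a → Cond3 s0 a) {J k : ℕ} (h : 4 * aS a0 k ≤ J) :
    w (aS a0 (k + 1)) ≤ w J := by
  have h1 : (1 : ℝ) ≤ ((aS a0 (k + 1) : ℕ) : ℝ) := by exact_mod_cast pos_aS H (k + 1)
  have h2 : ((aS a0 (k + 1) : ℕ) : ℝ) ≤ (J : ℝ) := by exact_mod_cast aS_succ_le H h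
  exact w_mono (by linarith) h2

lemma mem_KsI (H : ∀ a, a0 ≤ a → Cond3 s0 a) {J k : ℕ} (h : 4 * aS a0 k ≤ J) :
    k ∈ KsI a0 J := by
  unfold KsI
  rw [mem_filter, mem_range]
  refine ⟨?_, h⟩
  have h1 := index_le' H k
  have h2 := w_aS_le H h
  have h3 := w_pos (aS a0 k)
  have h4 : (k : ℝ) ≤ 10 * w J ^ 2 := by
    refine h1.trans ?_
    apply mul_le_mul_of_nonneg_left _ (by norm_num)
    exact pow_le_pow_left₀ h3.le h2 2
  have h5 := Nat.le_floor h4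
  omega

lemma le_of_mem_KsI {J k : ℕ} (h : k ∈ KsI a0 J) : 4 * aS a0 k ≤ J := by
  unfold KsI at h
  exact (mem_filter.1 h).2

lemma card_KsI_le (J : ℕ) : ((KsI a0 J).card : ℝ) ≤ 11 * w J ^ 2 := by
  have h1 : (KsI a0 J).card ≤ ⌊10 * w J ^ 2⌋₊ + 1 := by
    unfold KsI
    calc _ ≤ (range (⌊10 * w J ^ 2⌋₊ + 1)).card := card_filter_le _ _
      _ = _ := card_range _
  have h2 : ((⌊10 * w J ^ 2⌋₊ : ℕ) : ℝ) ≤ 10 * w J ^ 2 := Nat.floor_le (by positivity)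
  have h3 : 1 ≤ w J ^ 2 := one_le_pow₀ (one_le_w _)
  have h4 : ((KsI a0 J).card : ℝ) ≤ ((⌊10 * w J ^ 2⌋₊ + 1 : ℕ) : ℝ) := by exact_mod_cast h1
  push_cast at h4
  linarith

lemma eI_succ_le (H : ∀ a, a0 ≤ a → Cond3 s0 a) {J k : ℕ} (h : 4 * aS a0 k ≤ J) :
    (eI a0 (k + 1) : ℝ) ≤ w J ^ 8 + 1 :=
  (eI_le a0 (k + 1)).trans (add_le_add_left (pow_le_pow_left₀ (w_pos _).le (w_aS_succ_le H h) 8) 1)

/-- The number of blocks that lie outside of the worlds. -/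
lemma card_gap_le (H : ∀ a, a0 ≤ a → Cond3 s0 a) (J : ℕ) :
    ((badM (aS a0) (uS a0) (eI a0) 0 (fun k => 128 * eI a0 k) (fun _ => ∅) J (KsI a0 J)).card : ℝ)
      ≤ (((4 * aS a0 0 + thT (uS a0) (eI a0) 0 + 9 + 128 * eI a0 0 : ℕ) : ℝ) + 4587)
        * w J ^ 10 := by
  have h1 := badM_card_le (aS a0) (uS a0) (eI a0) 0 (fun k => 128 * eI a0 k) (fun _ => ∅) J
    (KsI a0 J)
  set E0 := 4 * aS a0 0 + thT (uS a0) (eI a0) 0 + 9 + 128 * eI a0 0 with hE0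
  have h2 : ((badM (aS a0) (uS a0) (eI a0) 0 (fun k => 128 * eI a0 k) (fun _ => ∅) J
      (KsI a0 J)).card : ℝ) ≤ ((E0 + ∑ k ∈ KsI a0 J, (192 * eI a0 (k + 1) + 33) : ℕ) : ℝ) := by
    have h3 : (∑ k ∈ KsI a0 J, (6 * (∅ : Finset ℕ).card + (64 * eI a0 (k + 1) + 33 +
        128 * eI a0 (k + 1) + 0))) = ∑ k ∈ KsI a0 J, (192 * eI a0 (k + 1) + 33) := by
      refine sum_congr rfl fun k _ => ?_
      rw [card_empty]
      ring
    rw [h3] at h1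
    exact_mod_cast h1
  refine h2.trans ?_
  push_cast
  have hX1 := one_le_w (J : ℝ)
  set X : ℝ := w J with hX
  have hX8 : 1 ≤ X ^ 8 := one_le_pow₀ hX1
  have hX10 : 1 ≤ X ^ 10 := one_le_pow₀ hX1
  have h4 : ∑ k ∈ KsI a0 J, (192 * (eI a0 (k + 1) : ℝ) + 33) ≤ 4587 * X ^ 10 := by
    calc ∑ k ∈ KsI a0 J, (192 * (eI a0 (k + 1) : ℝ) + 33)
        ≤ ∑ k ∈ KsI a0 J, 417 * X ^ 8 := by
          refine sum_le_sum fun k hk => ?_
          have h5 := eI_succ_le H (le_of_mem_KsI hk)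
          linarith
      _ = (KsI a0 J).card * (417 * X ^ 8) := by rw [sum_const, nsmul_eq_mul]
      _ ≤ (11 * X ^ 2) * (417 * X ^ 8) :=
          mul_le_mul_of_nonneg_right (card_KsI_le J) (by positivity)
      _ = 4587 * X ^ 10 := by ring
  have h6 : (0 : ℝ) ≤ (E0 : ℝ) := Nat.cast_nonneg _
  rw [hE0] at h6
  push_cast at h6
  nlinarith [mul_le_mul_of_nonneg_left hX10 h6]

/-- The bound for the sum of the block maxima. -/
lemma sum_bound (H : ∀ a, a0 ≤ a → Cond3 s0 a) {c0 : ℕ} {g : ℕ → ℕ → ℕ} {A : Set ℕ}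
    (hrep : ∀ k n, n < 2 ^ zR (aS a0) (uS a0) k → rep A n ≤ 4 * Cs * aS a0 k)
    (hprof : ∀ k j G, 4 * aS a0 k + thT (uS a0) (eI a0) k + 128 * eI a0 k ≤ j →
        j + 1 ≤ zR (aS a0) (uS a0) (k + 1) →
        (∀ l, l ≤ 5 → g k (j - 4 * aS a0 k - l) ≤ G) → ∀ n, 2 ^ j ≤ n → n < 2 ^ (j + 1) →
          rep A n ≤ 4096 ^ 2 * 2592 * G
            + 2 * (4096 * (tD (aS a0 k) (eI a0 k) (j - (4 * aS a0 k + thT (uS a0) (eI a0) k)) *
              Dk (kS a0) k))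
            + 2 * tD (aS a0 k) (eI a0 k)
              (j - (4 * aS a0 k + thT (uS a0) (eI a0) k + 128 * eI a0 k)))
    (hg : ∀ k, ∑ i ∈ range (laT (uS a0) k), g k i ≤ 2 ^ (c0 * (4 * sS a0 k)) * laT (uS a0) k)
    {J : ℕ} (hJ : zR (aS a0) (uS a0) 0 < J) :
    ((∑ j ∈ range J, blockMax A j : ℕ) : ℝ) ≤
      ((((4 * aS a0 0 + thT (uS a0) (eI a0) 0 + 9 + 128 * eI a0 0 : ℕ) : ℝ) + 4587) * 2 ^ 65 +
        11 * (4096 ^ 2 * 2592 * 6 * 2 ^ (4 * c0) + (8192 * 55 * 2 ^ 16 + 2) * 56)) *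
        w J ^ (4 * c0 + 10) * J := by
  have hT := mtow_inf H
  have h1 := sum_blockMax_le hT hrep hprof hJ (Ks := KsI a0 J) (fun k hk => mem_KsI H hk)
  have hgap := card_gap_le H J
  set E0 : ℝ := ((4 * aS a0 0 + thT (uS a0) (eI a0) 0 + 9 + 128 * eI a0 0 : ℕ) : ℝ) with hE0
  set bM := (badM (aS a0) (uS a0) (eI a0) 0 (fun k => 128 * eI a0 k) (fun _ => ∅) J
    (KsI a0 J)).card with hbM
  have hX1 := one_le_w (J : ℝ)
  set X : ℝ := w J with hX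
  have hX0 : 0 < X := by linarith
  have hJ1 : (1 : ℝ) ≤ J := by exact_mod_cast (show 1 ≤ J by omega)
  have hE00 : 0 ≤ E0 := Nat.cast_nonneg _
  have hC4 : (0 : ℝ) < 2 ^ (4 * c0) := by positivity
  -- the first part
  have hP1 : ((bM * (Cs * (J + 1)) : ℕ) : ℝ) ≤ (E0 + 4587) * 2 ^ 65 * X ^ 10 * J := by
    have h2 : ((Cs * (J + 1) : ℕ) : ℝ) ≤ 2 ^ 65 * J := by
      unfold Cs
      push_cast
      linarith
    rw [Nat.cast_mul]
    calc (bM : ℝ) * ((Cs * (J + 1) : ℕ) : ℝ) ≤ ((E0 + 4587) * X ^ 10) * (2 ^ 65 * J) :=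
          mul_le_mul hgap h2 (Nat.cast_nonneg _) (by positivity)
      _ = _ := by ring
  -- one world
  have hterm : ∀ k ∈ KsI a0 J, ((4096 ^ 2 * 2592 * (6 * ∑ i ∈ range (laT (uS a0) k), g k i) +
      (2 * (4096 * Dk (kS a0) k) + 2) * (44 * aS a0 k * (Nat.log 2 J + 1) + J) : ℕ) : ℝ)
      ≤ (4096 ^ 2 * 2592 * 6 * 2 ^ (4 * c0) + (8192 * 55 * 2 ^ 16 + 2) * 56)
        * (X ^ (4 * c0 + 4) * J) := by
    intro k hk
    have hk4 := le_of_mem_KsI hk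
    have hwk := w_aS_le H hk4
    have hwk1 := one_le_w (aS a0 k)
    have hak : ((4 * aS a0 k : ℕ) : ℝ) ≤ (J : ℝ) := by exact_mod_cast hk4
    have hlaT : ((laT (uS a0) k : ℕ) : ℝ) ≤ (J : ℝ) := by
      have := laT_le (p := 1) (c := 0) (s0 := s0) (fun a h => (H a h).cond) le_rfl k
      exact_mod_cast (show laT (uS a0) k ≤ J by omega)
    have h2 : ((∑ i ∈ range (laT (uS a0) k), g k i : ℕ) : ℝ) ≤ 2 ^ (4 * c0) * (X ^ (4 * c0) * J) := by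
      have h3 : ((∑ i ∈ range (laT (uS a0) k), g k i : ℕ) : ℝ)
          ≤ ((2 ^ (c0 * (4 * sS a0 k)) * laT (uS a0) k : ℕ) : ℝ) := by exact_mod_cast hg k
      refine h3.trans ?_
      rw [Nat.cast_mul, Nat.cast_pow, Nat.cast_ofNat]
      have h4 : (2 : ℝ) ^ (c0 * (4 * sS a0 k)) ≤ 2 ^ (4 * c0) * X ^ (4 * c0) := by
        have h5 := two_pow_sS (p := 1) (c := 0) (s0 := s0) (fun a h => (H a h).cond) k
        calc (2 : ℝ) ^ (c0 * (4 * sS a0 k)) = ((2 : ℝ) ^ sS a0 k) ^ (4 * c0) := by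
              rw [← pow_mul]
              congr 1
              ring
          _ ≤ (2 * X) ^ (4 * c0) := by
              apply pow_le_pow_left₀ (by positivity)
              linarith
          _ = _ := by rw [mul_pow]
      calc (2 : ℝ) ^ (c0 * (4 * sS a0 k)) * ((laT (uS a0) k : ℕ) : ℝ)
          ≤ (2 ^ (4 * c0) * X ^ (4 * c0)) * J := mul_le_mul h4 hlaT (Nat.cast_nonneg _)
            (by positivity)
        _ = _ := by ring
    have h6 : ((2 * (4096 * Dk (kS a0) k) + 2 : ℕ) : ℝ) ≤ (8192 * 55 * 2 ^ 16 + 2) * X ^ 3 := by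
      have h7 := Dk_le H k
      have h8 : w (aS a0 k) ^ 3 ≤ X ^ 3 := pow_le_pow_left₀ (w_pos _).le hwk 3
      have h9 : 1 ≤ X ^ 3 := one_le_pow₀ hX1
      push_cast
      linarith
    have h10 : ((44 * aS a0 k * (Nat.log 2 J + 1) + J : ℕ) : ℝ) ≤ 56 * X * J := by
      have h11 : (Nat.log 2 J : ℝ) ≤ 4 * X := natlog_le (a := J) (by omega)
      have h12 : ((44 * aS a0 k : ℕ) : ℝ) ≤ 11 * J := by
        push_cast at hak ⊢
        linarith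
      rw [Nat.cast_add, Nat.cast_mul]
      calc ((44 * aS a0 k : ℕ) : ℝ) * ((Nat.log 2 J + 1 : ℕ) : ℝ) + (J : ℝ)
          ≤ (11 * J) * (5 * X) + X * J := by
            apply add_le_add
            · apply mul_le_mul h12 _ (Nat.cast_nonneg _) (by positivity)
              push_cast
              linarith
            · nlinarith
        _ = 56 * X * J := by ring
    rw [Nat.cast_add, Nat.cast_mul (4096 ^ 2 * 2592), Nat.cast_mul 6, Nat.cast_mul (2 * _ + 2)]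
    have hXp : X ^ (4 * c0) ≤ X ^ (4 * c0 + 4) := pow_le_pow_right₀ hX1 (by omega)
    have hXq : X ^ 4 ≤ X ^ (4 * c0 + 4) := pow_le_pow_right₀ hX1 (by omega)
    have hJ0 : (0 : ℝ) ≤ J := by linarith
    have g1 : ((4096 ^ 2 * 2592 : ℕ) : ℝ) * (((6 : ℕ) : ℝ) * ((∑ i ∈ range (laT (uS a0) k), g k i : ℕ) : ℝ))
        ≤ (4096 ^ 2 * 2592 * 6 * 2 ^ (4 * c0)) * (X ^ (4 * c0 + 4) * J) := by
      calc ((4096 ^ 2 * 2592 : ℕ) : ℝ) * (((6 : ℕ) : ℝ) * ((∑ i ∈ range (laT (uS a0) k), g k i : ℕ) : ℝ))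
          ≤ ((4096 ^ 2 * 2592 : ℕ) : ℝ) * (((6 : ℕ) : ℝ) * (2 ^ (4 * c0) * (X ^ (4 * c0) * J))) := by
            gcongr
        _ = (4096 ^ 2 * 2592 * 6 * 2 ^ (4 * c0)) * (X ^ (4 * c0) * J) := by push_cast; ring
        _ ≤ _ := by gcongr
    have g2 : ((2 * (4096 * Dk (kS a0) k) + 2 : ℕ) : ℝ) *
        ((44 * aS a0 k * (Nat.log 2 J + 1) + J : ℕ) : ℝ)
        ≤ ((8192 * 55 * 2 ^ 16 + 2) * 56) * (X ^ (4 * c0 + 4) * J) := by
      calc _ ≤ ((8192 * 55 * 2 ^ 16 + 2) * X ^ 3) * (56 * X * J) :=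
            mul_le_mul h6 h10 (Nat.cast_nonneg _) (by positivity)
        _ = ((8192 * 55 * 2 ^ 16 + 2) * 56) * (X ^ 4 * J) := by ring
        _ ≤ _ := by gcongr
    linarith
  set C1 : ℝ := 4096 ^ 2 * 2592 * 6 * 2 ^ (4 * c0) + (8192 * 55 * 2 ^ 16 + 2) * 56 with hC1
  have hC10 : 0 ≤ C1 := by positivity
  have hJ0 : (0 : ℝ) ≤ J := by linarith
  have hP2 : ((∑ k ∈ KsI a0 J, (4096 ^ 2 * 2592 * (6 * ∑ i ∈ range (laT (uS a0) k), g k i) +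
      (2 * (4096 * Dk (kS a0) k) + 2) * (44 * aS a0 k * (Nat.log 2 J + 1) + J)) : ℕ) : ℝ)
      ≤ 11 * C1 * X ^ (4 * c0 + 6) * J := by
    rw [Nat.cast_sum]
    calc _ ≤ ∑ k ∈ KsI a0 J, C1 * (X ^ (4 * c0 + 4) * J) := sum_le_sum hterm
      _ = (KsI a0 J).card * (C1 * (X ^ (4 * c0 + 4) * J)) := by rw [sum_const, nsmul_eq_mul]
      _ ≤ (11 * X ^ 2) * (C1 * (X ^ (4 * c0 + 4) * J)) :=
          mul_le_mul_of_nonneg_right (card_KsI_le J) (by positivity)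
      _ = _ := by ring
  have h1' : ((∑ j ∈ range J, blockMax A j : ℕ) : ℝ) ≤ ((bM * (Cs * (J + 1)) : ℕ) : ℝ) +
      ((∑ k ∈ KsI a0 J, (4096 ^ 2 * 2592 * (6 * ∑ i ∈ range (laT (uS a0) k), g k i) +
      (2 * (4096 * Dk (kS a0) k) + 2) * (44 * aS a0 k * (Nat.log 2 J + 1) + J)) : ℕ) : ℝ) := by
    exact_mod_cast h1
  have hXa : X ^ 10 ≤ X ^ (4 * c0 + 10) := pow_le_pow_right₀ hX1 (by omega)
  have hXb : X ^ (4 * c0 + 6) ≤ X ^ (4 * c0 + 10) := pow_le_pow_right₀ hX1 (by omega)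
  calc _ ≤ (E0 + 4587) * 2 ^ 65 * X ^ 10 * J + 11 * C1 * X ^ (4 * c0 + 6) * J :=
        h1'.trans (add_le_add hP1 hP2)
    _ ≤ (E0 + 4587) * 2 ^ 65 * X ^ (4 * c0 + 10) * J + 11 * C1 * X ^ (4 * c0 + 10) * J := by
        gcongr
    _ = _ := by ring

end

end Pool.Agent.Helper63.FM
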